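import Pool.Agent.GEN.StmtsU
import Pool.Agent.Helper32_GEN.GLB

/-!
# Squad GEN, row SEM (semicontinuity of the roots)
-/

set_option autoImplicit false

namespace Pool.Agent.GEN.H98

open MvPolynomial Finset Pool.Agent.Helper6_Mono Pool.Agent.Helper30_Simp
  Pool.Agent.Helper30_Simp2 Pool.Agent.GEN

section

variable {σ A : Type} [CommRing A]

theorem act_C_mul (l : A) (w : MvPolynomial σ A) (a : A) (q : Sm σ A) :
    act l w (C a * q) = C a * act l w q := by
  rw [← MvPolynomial.smul_eq_C_mul, map_smul, MvPolynomial.smul_eq_C_mul]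

theorem act_X_mul (hsyc : SycStmt) (l : A) (w : MvPolynomial σ A) (q : Sm σ A) :
    act l w (X none * q) = C l * act l w q :=
  (hsyc σ A l w q).1

theorem act_one (hsyc : SycStmt) (l : A) (w : MvPolynomial σ A) :
    act l w (1 : Sm σ A) = w :=
  (hsyc σ A l w 1).2.2.2.2.2

theorem pw_zero (F : MvPolynomial σ A) (n : ℕ) : pw F 0 n = F ^ n := by
  unfold pw
  rw [add_zero, Int.toNat_natCast]

theorem act_aeval (hsyc : SycStmt) (l : A) (w : MvPolynomial σ A) (b : Polynomial A) :
    act l w (Polynomial.aeval (X none : Sm σ A) b) = C (b.eval l) * w := by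
  induction b using Polynomial.induction_on with
  | C a =>
    rw [Polynomial.aeval_C, Polynomial.eval_C, MvPolynomial.algebraMap_eq]
    have h1 := act_C_mul l w a (1 : Sm σ A)
    rw [mul_one, act_one hsyc] at h1
    exact h1
  | add p q hp hq =>
    rw [map_add, map_add, hp, hq, Polynomial.eval_add, C_add, add_mul]
  | monomial k a ih =>
    have h1 : Polynomial.aeval (X none : Sm σ A) (Polynomial.C a * Polynomial.X ^ (k + 1))
        = X none * Polynomial.aeval (X none : Sm σ A) (Polynomial.C a * Polynomial.X ^ k) := by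
      rw [pow_succ, ← mul_assoc, map_mul _ (Polynomial.C a * Polynomial.X ^ k), Polynomial.aeval_X,
        mul_comm]
    have h2 : (Polynomial.C a * Polynomial.X ^ (k + 1)).eval l
        = (Polynomial.C a * Polynomial.X ^ k).eval l * l := by
      rw [pow_succ, ← mul_assoc (Polynomial.C a), Polynomial.eval_mul, Polynomial.eval_X]
    rw [h1, act_X_mul hsyc, ih, h2, C_mul]
    ring

/-- linear extension of a function on the monomials -/
noncomputable def ext {K W : Type} [Field K] [AddCommGroup W] [Module K W]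
    (g : (SY σ →₀ ℕ) → W) : Sm σ K →ₗ[K] W :=
  (MvPolynomial.basisMonomials (SY σ) K).constr K g

theorem ext_monomial {K W : Type} [Field K] [AddCommGroup W] [Module K W]
    (g : (SY σ →₀ ℕ) → W) (m : SY σ →₀ ℕ) : ext (K := K) g (monomial m 1) = g m := by
  have h1 : (monomial m 1 : Sm σ K) = MvPolynomial.basisMonomials (SY σ) K m := by
    rw [MvPolynomial.coe_basisMonomials]
  rw [h1, ext, Module.Basis.constr_basis]

theorem lin_ext {K W : Type} [Field K] [AddCommGroup W] [Module K W]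
    (f g : Sm σ K →ₗ[K] W) (h : ∀ m, f (monomial m 1) = g (monomial m 1)) (q : Sm σ K) :
    f q = g q := by
  have h1 : f = g := by
    apply (MvPolynomial.basisMonomials (SY σ) K).ext
    intro m
    rw [MvPolynomial.coe_basisMonomials]
    exact h m
  rw [h1]

end

/-- **Row SEM** -/
theorem sem (hexh : ExhStmt) (hsyc : SycStmt) (hjcl : JclStmt) (hamp : AmpStmt)
    (hrmu : RmuStmt) (hlsy : LsyStmt) (hker : KerStmt) : SemStmt := by
  intro σ A _ _ _ _ F s₀ hC
  have hL : ∀ (y : SY σ) (p : Sm σ A), (Lop y p - X y * p).totalDegree ≤ p.totalDegree :=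
    fun y p => (hsyc σ A 0 0 p).2.2.2.1 y
  obtain ⟨h₁, hh₁, hext, -⟩ := hexh (SY σ) A Lop hL (JA F 0)
    (fun y p hp => (hjcl σ A F y).1 0 p hp)
  obtain ⟨h₂, hh₂, -, hnu⟩ := hexh (SY σ) A Lop hL (JB F (algebraMap ℚ A s₀))
    (fun y p hp => (hjcl σ A F y).2 _ p hp)
  refine ⟨h₁ * h₂, mul_ne_zero hh₁ hh₂, fun φ hφ hG b hb => ?_⟩
  rw [map_mul] at hφ
  have hφ1 : φ h₁ ≠ 0 := left_ne_zero_of_mul hφ
  have hφ2 : φ h₂ ≠ 0 := right_ne_zero_of_mul hφ
  obtain ⟨ν, hν, hν1⟩ := hnu hC ℂ φ hφ2
  obtain ⟨P, hP⟩ := H32.glb σ (map φ F) b hb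
  obtain ⟨p, hp⟩ := hlsy σ ℂ P
  obtain ⟨R, hR⟩ := hrmu σ A F
  -- the linear extensions
  let RK : Sm σ ℂ →ₗ[ℂ] Sm σ ℂ := ext fun m => map φ (R (monomial m 1))
  have hmm : ∀ m : SY σ →₀ ℕ, map φ (monomial m (1 : A)) = monomial m (1 : ℂ) := fun m => by
    rw [map_monomial, map_one]
  have hRK : ∀ (l : A) (w : MvPolynomial σ A) (q : Sm σ ℂ),
      act (φ l) (map φ w) (RK q) = act (φ l) (map φ (F * w)) q := by
    intro l w q
    refine lin_ext ((act (φ l) (map φ w)).comp RK) (act (φ l) (map φ (F * w))) (fun m => ?_) q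
    show act (φ l) (map φ w) (ext (fun m => map φ (R (monomial m 1))) (monomial m 1)) = _
    rw [ext_monomial, ← hamp σ A ℂ φ l w, hR, hamp σ A ℂ φ l (F * w), hmm]
  have hRKn : ∀ (n : ℕ) (q : Sm σ ℂ), act (n : ℂ) (map φ F ^ n) (RK q)
      = act (n : ℂ) (map φ F ^ (n + 1)) q := by
    intro n q
    have h1 := hRK (n : A) (F ^ n) q
    rw [map_natCast, map_pow, ← pow_succ', map_pow] at h1
    exact h1
  let B : Sm σ ℂ := Polynomial.aeval (X none : Sm σ ℂ) b
  have hT : B - RK p ∈ UU (map φ F) 0 := by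
    refine ⟨0, fun n _ => ?_⟩
    rw [pw_zero, map_sub, hRKn, hp, act_aeval hsyc, hP n, sub_eq_zero]
    rfl
  have hT2 := hker σ A ℂ φ F h₁ hext hφ1 hG _ hT
  -- the functional
  let N : Sm σ ℂ →ₗ[ℂ] ℂ := ext fun m => ν (monomial m 1)
  have hN : ∀ q : Sm σ A, N (map φ q) = ν q := by
    intro q
    induction q using MvPolynomial.induction_on' with
    | monomial m c =>
      have h1 : (monomial m c : Sm σ A) = c • monomial m 1 := by
        rw [MvPolynomial.smul_monomial, smul_eq_mul, mul_one]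
      have h2 : map φ (monomial m c : Sm σ A) = φ c • monomial m (1 : ℂ) := by
        rw [map_monomial, MvPolynomial.smul_monomial, smul_eq_mul, mul_one]
      rw [h2, map_smul, h1, map_smulₛₗ]
      show φ c • ext (fun m => ν (monomial m 1)) (monomial m 1) = _
      rw [ext_monomial]
    | add p q hp hq => rw [map_add, map_add, map_add, hp, hq]
  have hN0 : ∀ q ∈ JB F (algebraMap ℚ A s₀), N (map φ q) = 0 := fun q hq => by
    rw [hN, hν q hq]
  have hNT : N (B - RK p) = 0 := by
    have h1 : spn φ (UU F 0) ≤ LinearMap.ker N := by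
      refine Submodule.span_le.2 ?_
      rintro z ⟨q, ⟨n₀, hq⟩, rfl⟩
      show N (map φ q) = 0
      refine hN0 q ⟨0, 0, n₀, fun n hn => ?_⟩
      have h2 := hq n hn
      rw [pw_zero] at h2
      rw [h2, map_zero, map_zero, smul_zero, add_zero]
    exact h1 hT2
  have hNR : N (RK p) = 0 := by
    refine lin_ext (N.comp RK) 0 (fun m => ?_) p
    show N (ext (fun m => map φ (R (monomial m 1))) (monomial m 1)) = 0
    rw [ext_monomial]
    refine hN0 _ ⟨monomial m 1, 0, 0, fun n _ => ?_⟩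
    rw [hR, map_zero, smul_zero, add_zero, ← pow_succ']
  have hNB : N B = 0 := by
    rw [map_sub, hNR, sub_zero] at hNT
    exact hNT
  -- the value of `N` on polynomials in `s`
  have hφs : φ (algebraMap ℚ A s₀) = (s₀ : ℂ) := by
    have h1 := eq_ratCast (φ.comp (algebraMap ℚ A)) s₀
    exact h1
  have hNg : ∀ g : Polynomial ℂ, N (Polynomial.aeval (X none : Sm σ ℂ)
      ((Polynomial.X - Polynomial.C (s₀ : ℂ)) * g)) = 0 := by
    intro g
    induction g using Polynomial.induction_on' with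
    | add p q hp hq => rw [mul_add, map_add, map_add, hp, hq, add_zero]
    | monomial k c =>
      have h1 : Polynomial.aeval (X none : Sm σ ℂ)
          ((Polynomial.X - Polynomial.C (s₀ : ℂ)) * Polynomial.monomial k c)
          = c • map φ ((X none - C (algebraMap ℚ A s₀)) * X none ^ k : Sm σ A) := by
        rw [map_mul, map_sub, Polynomial.aeval_X, Polynomial.aeval_C, Polynomial.aeval_monomial,
          map_mul, map_sub, map_pow, map_X, map_C, hφs, MvPolynomial.algebraMap_eq,
          MvPolynomial.smul_eq_C_mul]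
        ring
      rw [h1, map_smul, hN0, smul_zero]
      refine ⟨0, X none ^ k, 0, fun n _ => ?_⟩
      rw [sub_mul, map_sub, act_X_mul hsyc, act_C_mul, map_zero, zero_add, sub_smul,
        MvPolynomial.smul_eq_C_mul, MvPolynomial.smul_eq_C_mul]
  have hb2 : b = (Polynomial.X - Polynomial.C (s₀ : ℂ)) *
      (b /ₘ (Polynomial.X - Polynomial.C (s₀ : ℂ))) + Polynomial.C (b.eval (s₀ : ℂ)) := by
    have h1 := Polynomial.modByMonic_add_div b (Polynomial.X - Polynomial.C (s₀ : ℂ))
    rw [Polynomial.modByMonic_X_sub_C_eq_C_eval] at h1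
    rw [add_comm]
    exact h1.symm
  have hN1 : N 1 = 1 := by
    have h1 := hN 1
    rw [map_one, hν1] at h1
    exact h1
  have hfin : N B = b.eval (s₀ : ℂ) := by
    show N (Polynomial.aeval (X none : Sm σ ℂ) b) = b.eval (s₀ : ℂ)
    conv_lhs => rw [hb2]
    rw [map_add, map_add, hNg, zero_add, Polynomial.aeval_C, MvPolynomial.algebraMap_eq]
    have h1 : (C (b.eval (s₀ : ℂ)) : Sm σ ℂ) = b.eval (s₀ : ℂ) • (1 : Sm σ ℂ) := by
      rw [MvPolynomial.smul_eq_C_mul, mul_one]
    rw [h1, map_smul, hN1, smul_eq_mul, mul_one]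
  rw [← hfin, hNB]

end Pool.Agent.GEN.H98
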