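import Pool.Agent.GEN.StmtsT

/-!
# Squad GEN: row STB (stabilization of `TorInd`)
-/

set_option autoImplicit false

namespace Pool.Agent.GEN.H98

open Finset Pool.Agent.Helper6_Mono Pool.Agent.Helper30_Simp Pool.Agent.Helper30_Simp2
  Pool.Agent.Helper8_CR Pool.Agent.GEN

variable {σ k : Type} [Field k]

/-- the exponent of `u_j v_j` -/
noncomputable def ej (σ : Type) {s : ℕ} (j : Fin s) : SV σ s →₀ ℕ :=
  Finsupp.single (Sum.inr (Sum.inl j)) 1 + Finsupp.single (Sum.inr (Sum.inr j)) 1

theorem ej_apply {s : ℕ} (i j : Fin s) :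
    ej σ i (Sum.inr (Sum.inl j)) = if i = j then 1 else 0 := by
  classical
  unfold ej
  rw [Finsupp.add_apply, Finsupp.single_apply, Finsupp.single_apply]
  by_cases h : i = j
  · subst h; simp
  · have h1 : (Sum.inr (Sum.inl i) : SV σ s) ≠ Sum.inr (Sum.inl j) := by
      intro h2; exact h (Sum.inl_injective (Sum.inr_injective h2))
    simp [h]

theorem ej_inj {s : ℕ} {i j : Fin s} (h : ej σ i = ej σ j) : i = j := by
  have h1 := ej_apply (σ := σ) i j
  rw [h, ej_apply, if_pos rfl] at h1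
  by_contra h2
  rw [if_neg h2] at h1
  exact one_ne_zero h1

theorem md_apply {s : ℕ} (α : σ →₀ ℕ) (j : Fin s ⊕ Fin s) :
    (Finsupp.mapDomain (Sum.inl : σ → SV σ s) α) (Sum.inr j) = 0 := by
  apply Finsupp.mapDomain_of_notMem_range
  rintro ⟨x, hx⟩
  exact Sum.inl_ne_inr hx

theorem md_ne {s : ℕ} (α : σ →₀ ℕ) (j : Fin s) :
    ej σ j ≠ Finsupp.mapDomain (Sum.inl : σ → SV σ s) α := by
  intro h
  have h1 := ej_apply (σ := σ) j j
  rw [h, md_apply, if_pos rfl] at h1
  exact zero_ne_one h1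

theorem coeff_uv {s : ℕ} (β : SV σ s →₀ ℕ) (j : Fin s) [Decidable (ej σ j = β)] :
    MvPolynomial.coeff β (MvPolynomial.X (Sum.inr (Sum.inl j)) *
      MvPolynomial.X (Sum.inr (Sum.inr j)) : MvPolynomial (SV σ s) k)
      = if ej σ j = β then 1 else 0 := by
  classical
  have h1 : (MvPolynomial.X (Sum.inr (Sum.inl j)) *
      MvPolynomial.X (Sum.inr (Sum.inr j)) : MvPolynomial (SV σ s) k)
      = MvPolynomial.monomial (ej σ j) 1 := by
    unfold MvPolynomial.X ej
    rw [MvPolynomial.monomial_mul, one_mul]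
  rw [h1, MvPolynomial.coeff_monomial]
  split_ifs <;> rfl

theorem coeff_stab {s : ℕ} (G : MvPolynomial σ k) (β : SV σ s →₀ ℕ)
    [∀ j : Fin s, Decidable (ej σ j = β)] :
    MvPolynomial.coeff β (stab G s) = MvPolynomial.coeff β
      (MvPolynomial.rename (Sum.inl : σ → SV σ s) G) + ∑ j : Fin s, if ej σ j = β then 1 else 0 := by
  unfold stab
  rw [MvPolynomial.coeff_add, MvPolynomial.coeff_sum]
  congr 1
  exact Finset.sum_congr rfl fun j _ => coeff_uv β j

theorem coeff_md {s : ℕ} (G : MvPolynomial σ k) (α : σ →₀ ℕ) :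
    MvPolynomial.coeff (Finsupp.mapDomain (Sum.inl : σ → SV σ s) α) (stab G s)
      = MvPolynomial.coeff α G := by
  classical
  rw [coeff_stab, MvPolynomial.coeff_rename_mapDomain _ Sum.inl_injective]
  rw [Finset.sum_eq_zero fun j _ => if_neg (md_ne α j), add_zero]

theorem coeff_ej {s : ℕ} (G : MvPolynomial σ k) (j : Fin s) :
    MvPolynomial.coeff (ej σ j) (stab G s) = 1 := by
  classical
  rw [coeff_stab, MvPolynomial.coeff_rename_eq_zero _ _ _
    (fun u hu => absurd hu.symm (md_ne u j)), zero_add, Finset.sum_eq_single j]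
  · rw [if_pos rfl]
  · intro i _ hi
    rw [if_neg fun h => hi (ej_inj h)]
  · intro h; exact absurd (Finset.mem_univ j) h

/-- the exponents of `stab G s` -/
noncomputable def gx (G : MvPolynomial σ k) (s : ℕ) : G.support ⊕ Fin s → (SV σ s →₀ ℕ) :=
  Sum.elim (fun α => Finsupp.mapDomain Sum.inl (α : σ →₀ ℕ)) (fun j => ej σ j)

theorem gx_surj (G : MvPolynomial σ k) (s : ℕ) (β : SV σ s →₀ ℕ) (hβ : β ∈ (stab G s).support) :
    ∃ x, gx G s x = β := by
  classical
  by_contra hcon
  push Not at hcon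
  rw [MvPolynomial.mem_support_iff] at hβ
  apply hβ
  rw [coeff_stab, MvPolynomial.coeff_rename_eq_zero, zero_add]
  · refine Finset.sum_eq_zero fun j _ => if_neg fun h => hcon (Sum.inr j) h
  · intro u hu
    by_contra h0
    exact hcon (Sum.inl ⟨u, MvPolynomial.mem_support_iff.2 h0⟩) hu

/-- **Row STB** -/
theorem stb (h : TexStmt) : StbStmt := by
  classical
  intro k _ _ σ G s hG
  obtain ⟨a0, t, hAI0⟩ := hG
  -- we may assume that `a` is not zero
  obtain ⟨a, ha, hAI⟩ : ∃ a : ℂ, a ≠ 0 ∧ AlgebraicIndependent ℚ fun α : G.support =>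
      a * ((α : σ →₀ ℕ).prod fun i n => t i ^ n) * algebraMap k ℂ (G.coeff (α : σ →₀ ℕ)) := by
    by_cases hne : Nonempty G.support
    · obtain ⟨α⟩ := hne
      refine ⟨a0, fun h0 => ?_, hAI0⟩
      have h1 := hAI0.ne_zero α
      apply h1
      simp [h0]
    · have hem : IsEmpty G.support := not_nonempty_iff.1 hne
      refine ⟨1, one_ne_zero, ?_⟩
      have h2 : (fun α : G.support => (1 : ℂ) * ((α : σ →₀ ℕ).prod fun i n => t i ^ n) *
          algebraMap k ℂ (G.coeff (α : σ →₀ ℕ))) = fun α : G.support => a0 *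
            ((α : σ →₀ ℕ).prod fun i n => t i ^ n) * algebraMap k ℂ (G.coeff (α : σ →₀ ℕ)) :=
        funext fun α => hem.elim α
      rw [h2]
      exact hAI0
  obtain ⟨d, hd⟩ := h _ _ hAI s
  let t' : SV σ s → ℂ := Sum.elim t (Sum.elim (fun j => d j / a) (fun _ => 1))
  have hval : ∀ x : G.support ⊕ Fin s,
      a * ((gx G s x).prod fun i n => t' i ^ n) * algebraMap k ℂ ((stab G s).coeff (gx G s x))
        = Sum.elim (fun α : G.support => a * ((α : σ →₀ ℕ).prod fun i n => t i ^ n) *
          algebraMap k ℂ (G.coeff (α : σ →₀ ℕ))) d x := by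
    rintro (α | j)
    · show a * ((Finsupp.mapDomain (Sum.inl : σ → SV σ s) (α : σ →₀ ℕ)).prod fun i n => t' i ^ n) *
        algebraMap k ℂ ((stab G s).coeff (Finsupp.mapDomain (Sum.inl : σ → SV σ s) (α : σ →₀ ℕ)))
        = a * ((α : σ →₀ ℕ).prod fun i n => t i ^ n) * algebraMap k ℂ (G.coeff (α : σ →₀ ℕ))
      rw [coeff_md, Finsupp.prod_mapDomain_index_inj Sum.inl_injective]
      rfl
    · show a * ((ej σ j).prod fun i n => t' i ^ n) * algebraMap k ℂ ((stab G s).coeff (ej σ j))
        = d j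
      rw [coeff_ej, map_one, mul_one]
      have h1 : (ej σ j).prod (fun i n => t' i ^ n) = d j / a := by
        unfold ej
        rw [Finsupp.prod_add_index' (fun i => pow_zero _) (fun i m n => pow_add _ _ _),
          Finsupp.prod_single_index (h := fun i n => t' i ^ n) (pow_zero _),
          Finsupp.prod_single_index (h := fun i n => t' i ^ n) (pow_zero _), pow_one, pow_one]
        show d j / a * 1 = d j / a
        rw [mul_one]
      rw [h1, mul_div_cancel₀ _ ha]
  choose F hF using fun β : (stab G s).support => gx_surj G s β.1 β.2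
  have hFi : Function.Injective F := by
    intro β β' hββ
    apply Subtype.ext
    rw [← hF β, ← hF β', hββ]
  refine ⟨a, t', ?_⟩
  have h3 := hd.comp F hFi
  have h4 : (Sum.elim (fun α : G.support => a * ((α : σ →₀ ℕ).prod fun i n => t i ^ n) *
      algebraMap k ℂ (G.coeff (α : σ →₀ ℕ))) d) ∘ F = fun α : (stab G s).support =>
      a * ((α : SV σ s →₀ ℕ).prod fun i n => t' i ^ n) *
        algebraMap k ℂ ((stab G s).coeff (α : SV σ s →₀ ℕ)) := by
    funext β
    rw [Function.comp_apply, ← hval, hF]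
  rw [h4] at h3
  exact h3

end Pool.Agent.GEN.H98
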